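import Mathlib
import Pool.Agent.Q39.TM.Final

set_option autoImplicit false

namespace Pool.Agent.Results.MP_7d59ed_nt.GrowthRateExists
open Filter Pool.Agent.Q39.TM

/-- The Prouhet-Thue-Morse sequence `t_n = (-1)^{s_2(n)}`, `s_2(n)` the binary digit sum. -/
def tm (n : ℕ) : ℤ := (-1) ^ (Nat.digits 2 n).sum

/-- The twisted Fibonacci sequence `h_0 = 0`, `h_1 = 1`, `h_n = t_n h_{n-1} + h_{n-2}`. -/
def h : ℕ → ℤ
  | 0 => 0
  | 1 => 1
  | n + 2 => tm (n + 2) * h (n + 1) + h n

lemma tm_zero : tm 0 = 1 := by simp [tm]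

lemma tm_even (n : ℕ) : tm (2 * n) = tm n := by
  rcases Nat.eq_zero_or_pos n with h | h
  · subst h; rfl
  · unfold tm
    rw [Nat.digits_def' (by norm_num) (by omega)]
    simp

lemma tm_odd (n : ℕ) : tm (2 * n + 1) = -tm n := by
  unfold tm
  rw [Nat.digits_def' (by norm_num) (by omega)]
  have e1 : (2 * n + 1) % 2 = 1 := by omega
  have e2 : (2 * n + 1) / 2 = n := by omega
  rw [e1, e2, List.sum_cons, pow_add]
  ring

lemma tm_sq (n : ℕ) : tm n * tm n = 1 := by
  unfold tm
  rw [← pow_add, ← two_mul, pow_mul]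
  norm_num

/-- The limit `g = lim |h_n|^{1/n}` exists, `1.152 < g < 1.1525`, and `|h_n| = g^n n^{O(1)}`. -/
theorem result : ∃ g : ℝ, 1.152 < g ∧ g < 1.1525 ∧
    Tendsto (fun n : ℕ => |(h n : ℝ)| ^ (1 / (n : ℝ))) atTop (nhds g) ∧
    ∃ C : ℝ, 0 < C ∧ ∀ n : ℕ, 6 ≤ n →
      g ^ n / (C * (n : ℝ) ^ (3 / 2 : ℝ)) ≤ |(h n : ℝ)| ∧
      |(h n : ℝ)| ≤ C * (n : ℝ) ^ (3 / 2 : ℝ) * g ^ n := by
  obtain ⟨c, hc⟩ := exists_c
  obtain ⟨g1, g2⟩ := num c hc
  have key := log_bound tm tm_zero tm_even tm_odd tm_sq h rfl rfl (fun n => rfl) c hc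
  have hlog : ∀ n : ℕ, 1 ≤ n → (Nat.log 2 n : ℝ) ≤ 3 / 2 * Real.log n := by
    intro n hn
    have hn1 : (1 : ℝ) ≤ n := by exact_mod_cast hn
    have h1 : 2 ^ Nat.log 2 n ≤ n := Nat.pow_log_le_self 2 (by omega)
    have h2 : ((2 : ℝ)) ^ Nat.log 2 n ≤ n := by exact_mod_cast h1
    have h3 := Real.log_le_log (by positivity) h2
    rw [Real.log_pow] at h3
    have h4 := Real.log_two_gt_d9
    have h5 : (0 : ℝ) ≤ Nat.log 2 n := Nat.cast_nonneg _
    nlinarith
  have main : ∀ n : ℕ, 6 ≤ n → h n ≠ 0 ∧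
      |Real.log |(h n : ℝ)| - c / 8 * n| ≤ 3 / 2 * Real.log n + (4 + |c|) := by
    intro n hn
    obtain ⟨k1, k2⟩ := key n hn
    refine ⟨k1, k2.trans ?_⟩
    have := hlog n (by omega)
    linarith
  refine ⟨Real.exp (c / 8), g1, g2, ?_, Real.exp (4 + |c|), Real.exp_pos _, ?_⟩
  · have lim : Tendsto (fun n : ℕ => Real.log |(h n : ℝ)| / n) atTop (nhds (c / 8)) := by
      rw [← tendsto_sub_nhds_zero_iff]
      have z : Tendsto (fun n : ℕ => (3 / 2 * Real.log n + (4 + |c|)) / n) atTop (nhds 0) := by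
        have z1 : Tendsto (fun x : ℝ => Real.log x / x) atTop (nhds 0) := by
          have := Real.isLittleO_log_id_atTop.tendsto_div_nhds_zero
          simpa using this
        have z2 : Tendsto (fun n : ℕ => Real.log (n : ℝ) / n) atTop (nhds 0) :=
          z1.comp tendsto_natCast_atTop_atTop
        have z3 : Tendsto (fun n : ℕ => (4 + |c|) / (n : ℝ)) atTop (nhds 0) :=
          tendsto_const_nhds.div_atTop tendsto_natCast_atTop_atTop
        have z4 := (z2.const_mul (3 / 2)).add z3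
        simp only [mul_zero, add_zero] at z4
        refine z4.congr fun n => ?_
        ring
      refine squeeze_zero_norm' ?_ z
      filter_upwards [eventually_ge_atTop 6] with n hn
      have hn0 : (0 : ℝ) < n := by exact_mod_cast (by omega : 0 < n)
      have e1 : Real.log |(h n : ℝ)| / n - c / 8 = (Real.log |(h n : ℝ)| - c / 8 * n) / n := by
        field_simp
      rw [Real.norm_eq_abs, e1, abs_div, abs_of_pos hn0]
      exact div_le_div_of_nonneg_right (main n hn).2 hn0.le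
    have lim2 := (Real.continuous_exp.tendsto (c / 8)).comp lim
    refine lim2.congr' ?_
    filter_upwards [eventually_ge_atTop 6] with n hn
    have hne : (0 : ℝ) < |(h n : ℝ)| := by
      rw [abs_pos]
      exact_mod_cast (main n hn).1
    rw [Function.comp, Real.rpow_def_of_pos hne]
    congr 1
    ring
  · intro n hn
    obtain ⟨k1, k2⟩ := main n hn
    have hne : (0 : ℝ) < |(h n : ℝ)| := by
      rw [abs_pos]
      exact_mod_cast k1
    have hn0 : (0 : ℝ) < n := by exact_mod_cast (by omega : 0 < n)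
    have e1 : (n : ℝ) ^ (3 / 2 : ℝ) = Real.exp (3 / 2 * Real.log n) := by
      rw [Real.rpow_def_of_pos hn0]
      congr 1
      ring
    have e2 : Real.exp (c / 8) ^ n = Real.exp (c / 8 * n) := by
      rw [← Real.exp_nat_mul]
      congr 1
      ring
    have e3 : |(h n : ℝ)| = Real.exp (Real.log |(h n : ℝ)|) := (Real.exp_log hne).symm
    rw [abs_le] at k2
    rw [e1, e2, e3, ← Real.exp_add, ← Real.exp_sub, ← Real.exp_add]
    constructor
    · apply Real.exp_le_exp.2
      linarith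
    · apply Real.exp_le_exp.2
      linarith

end Pool.Agent.Results.MP_7d59ed_nt.GrowthRateExists
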